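import Pool.Agent.MBX.Stmts

/-!
# MBX, row PAU: Pauli's identity `|sigma . pi phi|^2 = |pi phi|^2 + <phi, sigma . curl V phi>`
-/

set_option autoImplicit false

open MeasureTheory Complex

namespace Pool.Agent.MBX.H60

open Pool.Agent.Helper49_Pauli Pool.Agent.MBX

/-- coefficients of the six groups of cross terms -/
noncomputable def kap : Fin 6 → ℂ := ![-I, I, 1, -1, I, I]
/-- first spinor index -/
def ss : Fin 6 → Fin 2 := ![1, 0, 1, 0, 1, 0]
/-- second spinor index -/
def st : Fin 6 → Fin 2 := ![1, 0, 0, 1, 0, 1]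
/-- first space index -/
def ii : Fin 6 → Fin 3 := ![0, 0, 0, 0, 1, 1]
/-- second space index -/
def jj : Fin 6 → Fin 3 := ![1, 1, 2, 2, 2, 2]

theorem cast_nsq (u : S2) : ((nsq u : ℝ) : ℂ) = ∑ s, (starRingEnd ℂ) (u s) * u s := by
  rw [nsq, Complex.ofReal_sum]
  refine Finset.sum_congr rfl fun s _ => ?_
  rw [Complex.conj_mul']
  push_cast
  rfl

theorem alg (a : Fin 3 → S2) : ((nsq (∑ j, sg j (a j)) : ℝ) : ℂ) =
    ((∑ j, nsq (a j) : ℝ) : ℂ) + ∑ k : Fin 6, kap k *
      ((starRingEnd ℂ) (a (ii k) (ss k)) * a (jj k) (st k) -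
        (starRingEnd ℂ) (a (jj k) (ss k)) * a (ii k) (st k)) := by
  rw [Complex.ofReal_sum]
  simp only [cast_nsq, Fin.sum_univ_two, Fin.sum_univ_three, Fin.sum_univ_six, kap, ss, st, ii, jj,
    sg_apply, Pi.add_apply, Matrix.cons_val_zero, Matrix.cons_val_one, Matrix.cons_val,
    map_add, map_mul, map_neg, Complex.conj_I]
  ring_nf
  simp only [Complex.I_sq]
  ring

theorem algB (B : X3) (u : S2) (hB : ∀ k : Fin 6, ((![B 2, B 2, -B 1, -B 1, B 0, B 0] : Fin 6 → ℝ) k) =
    (![B 2, B 2, -B 1, -B 1, B 0, B 0] : Fin 6 → ℝ) k) :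
    ((pair u (sl B u) : ℝ) : ℂ) = ∑ k : Fin 6, kap k * (-I *
      ((((![B 2, B 2, -B 1, -B 1, B 0, B 0] : Fin 6 → ℝ) k : ℝ) : ℂ) *
        ((starRingEnd ℂ) (u (ss k)) * u (st k)))) := by
  have h : (∑ s, (starRingEnd ℂ) (u s) * sl B u s) = ∑ k : Fin 6, kap k * (-I *
      ((((![B 2, B 2, -B 1, -B 1, B 0, B 0] : Fin 6 → ℝ) k : ℝ) : ℂ) *
        ((starRingEnd ℂ) (u (ss k)) * u (st k)))) := by
    simp only [sl_apply, Fin.sum_univ_two, Fin.sum_univ_three, Fin.sum_univ_six, kap, ss, st,
      sg_apply, Pi.add_apply, Pi.smul_apply, smul_eq_mul, Matrix.cons_val_zero,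
      Matrix.cons_val_one, Matrix.cons_val, Complex.ofReal_neg]
    ring_nf
    simp only [Complex.I_sq]
    ring
  rw [← h, pair]
  apply Complex.ext
  · rw [Complex.ofReal_re]
  · rw [Complex.ofReal_im]
    symm
    rw [h]
    have hc : (starRingEnd ℂ) (∑ k : Fin 6, kap k * (-I *
      ((((![B 2, B 2, -B 1, -B 1, B 0, B 0] : Fin 6 → ℝ) k : ℝ) : ℂ) *
        ((starRingEnd ℂ) (u (ss k)) * u (st k))))) = ∑ k : Fin 6, kap k * (-I *
      ((((![B 2, B 2, -B 1, -B 1, B 0, B 0] : Fin 6 → ℝ) k : ℝ) : ℂ) *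
        ((starRingEnd ℂ) (u (ss k)) * u (st k)))) := by
      simp only [Fin.sum_univ_six, kap, ss, st, Matrix.cons_val_zero,
        Matrix.cons_val_one, Matrix.cons_val, Complex.ofReal_neg, map_add, map_mul, map_neg,
        Complex.conj_I, Complex.conj_conj, Complex.conj_ofReal, map_one]
      ring
    exact Complex.conj_eq_iff_im.mp hc

theorem pau (xib : XibStmt) (ccc : CccStmt) : PauStmt := by
  intro V hV phi hphi
  have hcs : ∀ (s : Fin 2) (j : Fin 3), CS (cv V j fun x => phi x s) := fun s j =>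
    (xib V hV _ _ (hphi s) (hphi s) j).1
  -- integrability of products
  have hint : ∀ f g : X3 → ℂ, CS f → CS g →
      Integrable (fun x => (starRingEnd ℂ) (f x) * g x) := by
    intro f g hf hg
    refine Continuous.integrable_of_hasCompactSupport ?_ ?_
    · exact (Complex.continuous_conj.comp hf.1.continuous).mul hg.1.continuous
    · exact hg.2.mul_left
  have hintB : ∀ (i j : Fin 3) (s t : Fin 2), Integrable (fun x =>
      ((pd i (fun z => V z j) x - pd j (fun z => V z i) x : ℝ) : ℂ) *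
        ((starRingEnd ℂ) (phi x s) * phi x t)) := by
    intro i j s t
    have hpd : ∀ (i j : Fin 3), Continuous fun x => pd i (fun z => V z j) x := by
      intro i j
      have := (hV j).continuous_fderiv (by simp)
      exact this.clm_apply continuous_const
    refine Continuous.integrable_of_hasCompactSupport ?_ ?_
    · refine (Complex.continuous_ofReal.comp ((hpd i j).sub (hpd j i))).mul ?_
      exact (Complex.continuous_conj.comp (hphi s).1.continuous).mul (hphi t).1.continuous
    · exact ((hphi t).2.mul_left).mul_left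
  have hcov : ∀ j x s, cov V j phi x s = cv V j (fun x => phi x s) x := fun j x s => rfl
  apply Complex.ofReal_injective
  rw [Complex.ofReal_add, ← integral_complex_ofReal, ← integral_complex_ofReal,
    ← integral_complex_ofReal]
  -- the kinetic term
  have hA : Integrable (fun x => ((∑ j, nsq (cov V j phi x) : ℝ) : ℂ)) := by
    have : (fun x => ((∑ j, nsq (cov V j phi x) : ℝ) : ℂ)) = fun x => ∑ j : Fin 3, ∑ s : Fin 2,
        (starRingEnd ℂ) (cv V j (fun x => phi x s) x) * cv V j (fun x => phi x s) x := by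
      funext x
      rw [Complex.ofReal_sum]
      simp only [cast_nsq, hcov]
    rw [this]
    exact integrable_finsetSum _ fun j _ => integrable_finsetSum _ fun s _ =>
      hint _ _ (hcs s j) (hcs s j)
  have hG : ∀ k : Fin 6, Integrable (fun x => kap k *
      ((starRingEnd ℂ) (cv V (ii k) (fun x => phi x (ss k)) x) *
          cv V (jj k) (fun x => phi x (st k)) x -
        (starRingEnd ℂ) (cv V (jj k) (fun x => phi x (ss k)) x) *
          cv V (ii k) (fun x => phi x (st k)) x)) := by
    intro k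
    exact ((hint _ _ (hcs _ _) (hcs _ _)).sub (hint _ _ (hcs _ _) (hcs _ _))).const_mul _
  have e1 : (fun x => ((nsq (dop V phi x) : ℝ) : ℂ)) = fun x =>
      ((∑ j, nsq (cov V j phi x) : ℝ) : ℂ) + ∑ k : Fin 6, kap k *
      ((starRingEnd ℂ) (cv V (ii k) (fun x => phi x (ss k)) x) *
          cv V (jj k) (fun x => phi x (st k)) x -
        (starRingEnd ℂ) (cv V (jj k) (fun x => phi x (ss k)) x) *
          cv V (ii k) (fun x => phi x (st k)) x) := by
    funext x
    rw [dop, alg]
    simp only [hcov]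
  have e2 : (fun x => ((pair (phi x) (sl (curl V x) (phi x)) : ℝ) : ℂ)) = fun x =>
      ∑ k : Fin 6, kap k * (-I *
      (((pd (ii k) (fun z => V z (jj k)) x - pd (jj k) (fun z => V z (ii k)) x : ℝ) : ℂ) *
        ((starRingEnd ℂ) (phi x (ss k)) * phi x (st k)))) := by
    funext x
    rw [algB _ _ (fun _ => rfl)]
    refine Finset.sum_congr rfl fun k _ => ?_
    congr 3
    fin_cases k <;> simp [curl, ii, jj]
  rw [e1, e2, integral_add hA (integrable_finsetSum _ fun k _ => hG k),
    integral_finset_sum _ (fun k _ => hG k), integral_finset_sum _ (fun k _ =>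
      ((hintB (ii k) (jj k) (ss k) (st k)).const_mul (-I)).const_mul (kap k))]
  congr 1
  refine Finset.sum_congr rfl fun k _ => ?_
  rw [integral_const_mul, integral_const_mul, integral_const_mul,
    integral_sub (hint _ _ (hcs _ _) (hcs _ _)) (hint _ _ (hcs _ _) (hcs _ _)),
    ccc V hV _ _ (hphi (ss k)) (hphi (st k)) (ii k) (jj k)]

end Pool.Agent.MBX.H60
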